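import Pool.Agent.W221.ABC.Main7
import Pool.Agent.Y854.GM.Win

/-! The number of the integers which are a member of an abc-triple of bounded height with a small radical. -/

set_option autoImplicit false

open Finset

namespace Pool.Agent.Y854.AB

open Pool.Agent.W221.ABC7 (Fx ExcB count_FxB excB_finite Fx_pos)
open Pool.Agent.H785R2.ABC (rad)

/-- `m` is a member of a triple `a + b = c`, `a, b > 0` coprime, with `c ≤ m ^ A` and `rad (abc) ≤ B c ^ lam` -/
def Bad (B lam A : ℝ) : Set ℕ :=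
  {m : ℕ | ∃ a b : ℕ, 0 < a ∧ 0 < b ∧ Nat.Coprime a b ∧ (a = m ∨ b = m ∨ a + b = m) ∧
    ((a + b : ℕ) : ℝ) ≤ (m : ℝ) ^ A ∧ (rad (a * b * (a + b)) : ℝ) ≤ B * ((a + b : ℕ) : ℝ) ^ lam}

open Classical in
theorem count (B lam A : ℝ) (hlam : 0 < lam) (hA : 0 < A) (ε : ℝ) (hε : 0 < ε) :
    ∃ C : ℝ, ∀ X : ℕ, 1 ≤ X →
      (((Ioc 0 X).filter (fun m => m ∈ Bad B lam A)).card : ℝ) ≤ C * (X : ℝ) ^ (A * Fx lam + ε) := by
  obtain ⟨C, hC⟩ := count_FxB B lam (ε / A) hlam (by positivity)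
  refine ⟨3 * |C|, fun X hX => ?_⟩
  have hX1 : (1 : ℝ) ≤ X := by exact_mod_cast hX
  set Y : ℕ := ⌊(X : ℝ) ^ A⌋₊ with hY
  have hY1 : 1 ≤ Y := Nat.le_floor (by
    rw [Nat.cast_one]
    exact Real.one_le_rpow hX1 hA.le)
  have h1 := hC Y hY1
  have hfin := excB_finite B lam Y
  have hsub : (Ioc 0 X).filter (fun m => m ∈ Bad B lam A) ⊆
      (hfin.toFinset.image (fun t => t.1)) ∪ ((hfin.toFinset.image (fun t => t.2.1)) ∪
        (hfin.toFinset.image (fun t => t.2.2))) := by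
    intro m hm
    rw [mem_filter, mem_Ioc] at hm
    obtain ⟨⟨hm0, hmX⟩, a, b, ha, hb, hab, hmem, hht, hrad⟩ := hm
    have hc : a + b ≤ Y := Nat.le_floor (hht.trans
      (Real.rpow_le_rpow (Nat.cast_nonneg _) (by exact_mod_cast hmX) hA.le))
    have ht : (a, b, a + b) ∈ ExcB B lam Y := ⟨ha, hb, hab, rfl, hc, hrad⟩
    simp only [mem_union, mem_image, Set.Finite.mem_toFinset]
    rcases hmem with h | h | h
    · exact Or.inl ⟨_, ht, h⟩
    · exact Or.inr (Or.inl ⟨_, ht, h⟩)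
    · exact Or.inr (Or.inr ⟨_, ht, h⟩)
  have h2 : ((Ioc 0 X).filter (fun m => m ∈ Bad B lam A)).card ≤ 3 * (ExcB B lam Y).ncard := by
    have e : (ExcB B lam Y).ncard = hfin.toFinset.card := Set.ncard_eq_toFinset_card _ hfin
    have g1 := (card_le_card hsub).trans (card_union_le _ _)
    have g2 := card_union_le (hfin.toFinset.image (fun t => t.2.1)) (hfin.toFinset.image (fun t => t.2.2))
    have g3 := card_image_le (s := hfin.toFinset) (f := fun t => t.1)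
    have g4 := card_image_le (s := hfin.toFinset) (f := fun t => t.2.1)
    have g5 := card_image_le (s := hfin.toFinset) (f := fun t => t.2.2)
    omega
  have h3 : (((Ioc 0 X).filter (fun m => m ∈ Bad B lam A)).card : ℝ) ≤ 3 * ((ExcB B lam Y).ncard : ℝ) := by
    exact_mod_cast h2
  have hpow : (Y : ℝ) ^ (Fx lam + ε / A) ≤ (X : ℝ) ^ (A * Fx lam + ε) := by
    have hF := Fx_pos lam hlam
    calc (Y : ℝ) ^ (Fx lam + ε / A) ≤ ((X : ℝ) ^ A) ^ (Fx lam + ε / A) :=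
          Real.rpow_le_rpow (Nat.cast_nonneg _) (Nat.floor_le (by positivity)) (by positivity)
      _ = (X : ℝ) ^ (A * Fx lam + ε) := by
          rw [← Real.rpow_mul (by positivity)]
          congr 1
          field_simp
  calc (((Ioc 0 X).filter (fun m => m ∈ Bad B lam A)).card : ℝ) ≤ 3 * ((ExcB B lam Y).ncard : ℝ) := h3
    _ ≤ 3 * (C * (Y : ℝ) ^ (Fx lam + ε / A)) := by linarith
    _ ≤ 3 * (|C| * (X : ℝ) ^ (A * Fx lam + ε)) := by
        have : C * (Y : ℝ) ^ (Fx lam + ε / A) ≤ |C| * (X : ℝ) ^ (A * Fx lam + ε) :=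
          (mul_le_mul_of_nonneg_right (le_abs_self C) (by positivity)).trans
            (mul_le_mul_of_nonneg_left hpow (abs_nonneg C))
        linarith
    _ = 3 * |C| * (X : ℝ) ^ (A * Fx lam + ε) := by ring

/-- **Members of abc-triples in windows around sequences.** For all amplitudes outside a set of dimension at most
`(A Fx(lam) + τ) / (1 - θ)` and all but finitely many `n` no integer in the window around `α v_n` is bad. -/
theorem win (B lam A : ℝ) (hlam : 0 < lam) (hA : 0 < A) {v : ℕ → ℝ} {τ θ : ℝ} (hpos : ∀ n, 1 ≤ v n) (hτ : 0 ≤ τ)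
    (hv : Pool.Agent.Y854.GM.ExpLe v τ) (hθ : θ < 1) :
    ∃ E : Set ℝ, dimH E ≤ ENNReal.ofReal ((A * Fx lam + τ) / (1 - θ)) ∧ ∀ α : ℝ, 0 < α → α ∉ E →
      ∃ n0 : ℕ, ∀ n : ℕ, n0 ≤ n → ∀ m : ℕ, |(m : ℝ) - α * v n| ≤ (v n) ^ θ → 0 < m ∧ m ∉ Bad B lam A :=
  Pool.Agent.Y854.GM.win_nat (Bad B lam A) hpos hτ hv (mul_nonneg hA.le (Fx_pos lam hlam).le) hθ
    (count B lam A hlam hA)

end Pool.Agent.Y854.AB
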